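import Mathlib

set_option autoImplicit false

/-! # CV-CONJ: reflection at the real axis -/

namespace Pool.Agent.W966.CV

open Filter Topology ComplexConjugate

theorem analytic_refl (f : ℂ → ℂ) (x : ℝ) (h : AnalyticAt ℂ f (x : ℂ)) :
    AnalyticAt ℂ (fun w => conj (f (conj w))) (x : ℂ) := by
  rw [Complex.analyticAt_iff_eventually_differentiableAt] at h ⊢
  have hc : Tendsto (fun w : ℂ => conj w) (𝓝 (x : ℂ)) (𝓝 (x : ℂ)) := by
    have h1 := Complex.continuous_conj.tendsto (x : ℂ)
    rwa [Complex.conj_ofReal] at h1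
  filter_upwards [hc.eventually h] with w hw
  have h2 := hw.conj_conj
  rw [Complex.conj_conj] at h2
  exact h2

theorem tendsto_refl (x : ℝ) : Tendsto (fun w : ℂ => conj w) (𝓝[≠] (x : ℂ)) (𝓝[≠] (x : ℂ)) := by
  refine tendsto_nhdsWithin_iff.2 ⟨?_, ?_⟩
  · have h1 := Complex.continuous_conj.tendsto (x : ℂ)
    rw [Complex.conj_ofReal] at h1
    exact h1.mono_left nhdsWithin_le_nhds
  · filter_upwards [self_mem_nhdsWithin] with z hz hzx
    apply hz
    have h2 : conj z = (x : ℂ) := hzx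
    have h3 := congrArg conj h2
    rw [Complex.conj_conj, Complex.conj_ofReal] at h3
    exact h3

theorem mero_refl (Φ : ℂ → ℂ) (x : ℝ) (h : MeromorphicAt Φ (x : ℂ)) :
    MeromorphicAt (fun w => conj (Φ (conj w))) (x : ℂ) := by
  obtain ⟨n, hn⟩ := h
  refine ⟨n, ?_⟩
  have h1 := analytic_refl _ x hn
  have e : (fun w : ℂ => conj ((conj w - (x : ℂ)) ^ n • Φ (conj w))) =
      fun z : ℂ => (z - (x : ℂ)) ^ n • conj (Φ (conj z)) := by
    funext w
    rw [smul_eq_mul, smul_eq_mul, map_mul, map_pow, map_sub, Complex.conj_conj, Complex.conj_ofReal]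
  rw [e] at h1
  exact h1

theorem order_refl (Φ : ℂ → ℂ) (x : ℝ) (h : MeromorphicAt Φ (x : ℂ)) :
    meromorphicOrderAt (fun w => conj (Φ (conj w))) (x : ℂ) = meromorphicOrderAt Φ (x : ℂ) := by
  by_cases ht : meromorphicOrderAt Φ (x : ℂ) = ⊤
  · rw [ht, meromorphicOrderAt_eq_top_iff]
    rw [meromorphicOrderAt_eq_top_iff] at ht
    filter_upwards [(tendsto_refl x).eventually ht] with z hz
    rw [hz, map_zero]
  · obtain ⟨n, hn⟩ := WithTop.ne_top_iff_exists.1 ht
    rw [← hn]
    rw [meromorphicOrderAt_eq_int_iff (mero_refl Φ x h)]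
    obtain ⟨g, hg, hg0, hge⟩ := (meromorphicOrderAt_eq_int_iff h).1 hn.symm
    refine ⟨fun w => conj (g (conj w)), analytic_refl g x hg, ?_, ?_⟩
    · intro h0
      apply hg0
      have h1 : conj (g (conj (x : ℂ))) = 0 := h0
      rw [Complex.conj_ofReal] at h1
      exact (map_eq_zero _).1 h1
    · filter_upwards [(tendsto_refl x).eventually hge] with z hz
      rw [hz, smul_eq_mul, smul_eq_mul, map_mul, map_zpow₀, map_sub, Complex.conj_conj,
        Complex.conj_ofReal]

end Pool.Agent.W966.CV
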