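import Pool.Agent.W187.CV.Stm
import Pool.Agent.W966.CV.ConjCore

set_option autoImplicit false

/-! # CV-CONJ -/

namespace Pool.Agent.W966.CV

theorem conjm : Pool.Agent.W187.CV.S_CONJ :=
  fun Φ x h => ⟨mero_refl Φ x h, order_refl Φ x h⟩

end Pool.Agent.W966.CV
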